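import Pool.Agent.Helper92_GBS.ALG3

/-!
# GBS, row ALR: `|Ric₀|² = |R|²/4 - E4/16`
-/

set_option autoImplicit false

open Matrix

namespace Pool.Agent.GBS.H92

open Pool.Agent.GBS

variable {K : Fin 4 → Fin 4 → Fin 4 → Fin 4 → ℝ}

theorem norm_blocks (hK : IsACT K) :
    ∑ a, ∑ b, ∑ c, ∑ d, K a b c d ^ 2 = 4 * (nsq (mA K) + nsq (mD K) + 2 * nsq (mB K)) := by
  have h1 : ∀ a b, ∑ c, ∑ d, K a b c d ^ 2 =
      2 * ∑ q, (K a b (pr q).1 (pr q).2 ^ 2 + K a b (ps q).1 (ps q).2 ^ 2) := by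
    intro a b
    have h2 := asum (fun c d => K a b c d) (fun c d => K a b c d) (fun c d => hK.anti' a b c d)
      (fun c d => hK.anti' a b c d)
    simpa only [← sq] using h2
  have h3 : ∀ Q : Fin 4 × Fin 4, ∑ a, ∑ b, K a b Q.1 Q.2 ^ 2 =
      2 * ∑ p, (K (pr p).1 (pr p).2 Q.1 Q.2 ^ 2 + K (ps p).1 (ps p).2 Q.1 Q.2 ^ 2) := by
    intro Q
    have h2 := asum (fun a b => K a b Q.1 Q.2) (fun a b => K a b Q.1 Q.2)
      (fun a b => hK.anti a b _ _) (fun a b => hK.anti a b _ _)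
    simpa only [← sq] using h2
  have h4 : ∑ a, ∑ b, ∑ c, ∑ d, K a b c d ^ 2 =
      2 * ∑ q, (∑ a, ∑ b, K a b (pr q).1 (pr q).2 ^ 2 + ∑ a, ∑ b, K a b (ps q).1 (ps q).2 ^ 2) := by
    simp only [h1]
    simp only [Fin.sum_univ_four, Fin.sum_univ_three]
    ring
  rw [h4]
  simp only [h3]
  simp only [nsq, mA, mD, mB, Matrix.of_apply, Fin.sum_univ_three]
  have hk : ∀ P Q : Fin 4 × Fin 4, K P.1 P.2 Q.1 Q.2 = kk K P Q := fun _ _ => rfl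
  simp only [hk]
  rw [kk_symm hK (pr 1) (pr 0), kk_symm hK (pr 2) (pr 0), kk_symm hK (pr 2) (pr 1),
    kk_symm hK (ps 1) (ps 0), kk_symm hK (ps 2) (ps 0), kk_symm hK (ps 2) (ps 1),
    kk_symm hK (ps 0) (pr 0), kk_symm hK (ps 0) (pr 1), kk_symm hK (ps 0) (pr 2),
    kk_symm hK (ps 1) (pr 0), kk_symm hK (ps 1) (pr 1), kk_symm hK (ps 1) (pr 2),
    kk_symm hK (ps 2) (pr 0), kk_symm hK (ps 2) (pr 1), kk_symm hK (ps 2) (pr 2)]
  ring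

/-- ALR -/
theorem alr (hK : IsACT K) :
    ric0 K = (∑ a, ∑ b, ∑ c, ∑ d, K a b c d ^ 2) / 4 - E4 K / 16 := by
  rw [norm_blocks hK, E4_eq hK, ← four_mB hK]
  ring

end Pool.Agent.GBS.H92
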