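import Pool.Agent.GBS.Defs

/-!
# GBS: the pointwise inequalities for the Gauss-Bonnet integrand in dimension four

`A`, `D`, `B` are the blocks of the curvature operator with respect to the self-dual and the
anti-self-dual bivectors.  ALG1: `|K| ≤ 1`; ALG2: `K ≤ 1`; ALG3: `-c ≤ K ≤ 1`.
-/

set_option autoImplicit false

open Matrix

namespace Pool.Agent.GBS.H92

open Pool.Agent.GBS

/-! ### linear algebra -/

/-- the squared norm of a matrix -/
def nsq (A : Matrix (Fin 3) (Fin 3) ℝ) : ℝ := ∑ i, ∑ j, A i j ^ 2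

theorem nsq_nonneg (A : Matrix (Fin 3) (Fin 3) ℝ) : 0 ≤ nsq A :=
  Finset.sum_nonneg fun _ _ => Finset.sum_nonneg fun _ _ => sq_nonneg _

/-- diagonalisation of a symmetric matrix: eigenvalues as values at unit vectors -/
theorem spec (A : Matrix (Fin 3) (Fin 3) ℝ) (hA : A.IsSymm) :
    ∃ (l : Fin 3 → ℝ) (e : Fin 3 → Fin 3 → ℝ), (∀ i, e i ⬝ᵥ e i = 1) ∧
      (∀ i, e i ⬝ᵥ (A *ᵥ e i) = l i) ∧ ∑ i, l i = A.trace ∧ ∑ i, l i ^ 2 = nsq A := by
  have hH : A.IsHermitian := by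
    rw [Matrix.IsHermitian, Matrix.conjTranspose_eq_transpose_of_trivial]
    exact hA
  obtain ⟨V, hV⟩ : ∃ V : Matrix (Fin 3) (Fin 3) ℝ, V = (hH.eigenvectorUnitary : Matrix _ _ ℝ) :=
    ⟨_, rfl⟩
  have h1 : star V * V = 1 := by rw [hV]; exact Unitary.coe_star_mul_self _
  have h1' : Vᵀ * V = 1 := by
    rw [Matrix.star_eq_conjTranspose, Matrix.conjTranspose_eq_transpose_of_trivial] at h1
    exact h1
  have h2' : V * Vᵀ = 1 := mul_eq_one_comm.1 h1'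
  have h3 : A * V = V * diagonal hH.eigenvalues := by
    ext i j
    have h4 := congrFun (hH.mulVec_eigenvectorBasis j) i
    rw [Matrix.mul_diagonal, hV]
    rw [Matrix.mul_apply]
    simp only [Matrix.IsHermitian.eigenvectorUnitary_apply]
    rw [Pi.smul_apply, smul_eq_mul] at h4
    rw [mul_comm, ← h4]
    rfl
  have h4 : Vᵀ * A * V = diagonal hH.eigenvalues := by
    rw [Matrix.mul_assoc, h3, ← Matrix.mul_assoc, h1', Matrix.one_mul]
  refine ⟨hH.eigenvalues, fun i j => V j i, ?_, ?_, ?_, ?_⟩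
  · intro i
    have h5 := congrFun (congrFun h1' i) i
    rw [Matrix.one_apply_eq, Matrix.mul_apply] at h5
    exact h5
  · intro i
    have h5 := congrFun (congrFun h4 i) i
    rw [Matrix.diagonal_apply_eq, Matrix.mul_assoc, Matrix.mul_apply] at h5
    rw [← h5]
    simp only [dotProduct, Matrix.mulVec, Matrix.mul_apply, Matrix.transpose_apply]
  · have h5 : (Vᵀ * A * V).trace = A.trace := by
      rw [Matrix.trace_mul_comm, ← Matrix.mul_assoc, h2', Matrix.one_mul]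
    rw [← h5, h4, Matrix.trace_diagonal]
  · have h5 : (Vᵀ * A * V * (Vᵀ * A * V)).trace = (A * A).trace := by
      have : Vᵀ * A * V * (Vᵀ * A * V) = Vᵀ * (A * A) * V := by
        calc Vᵀ * A * V * (Vᵀ * A * V) = Vᵀ * A * (V * Vᵀ) * A * V := by
              simp only [Matrix.mul_assoc]
          _ = Vᵀ * (A * A) * V := by rw [h2', Matrix.mul_one]; simp only [Matrix.mul_assoc]
      rw [this, Matrix.trace_mul_comm, ← Matrix.mul_assoc, h2', Matrix.one_mul]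
    have h6 : (A * A).trace = nsq A := by
      simp only [nsq, Matrix.trace, Matrix.diag, Matrix.mul_apply]
      refine Finset.sum_congr rfl fun i _ => Finset.sum_congr rfl fun j _ => ?_
      have : A j i = A i j := hA.apply i j
      rw [this, sq]
    rw [← h6, ← h5, h4, Matrix.diagonal_mul_diagonal, Matrix.trace_diagonal]
    exact Finset.sum_congr rfl fun i _ => sq _

/-- traceless triples -/
theorem triple (l : Fin 3 → ℝ) (h0 : ∑ i, l i = 0) :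
    ∃ p q : ℝ, (∃ i, l i = p) ∧ (∃ i, l i = -q) ∧ 0 ≤ p ∧ 0 ≤ q ∧ ∑ i, l i ^ 2 ≤ 3 * p * q ∧
      ∑ i, l i ^ 2 ≤ 6 * p ^ 2 ∧ ∑ i, l i ^ 2 ≤ 6 * q ^ 2 ∧
      3 / 2 * ∑ i, l i ^ 2 ≤ (p + q) ^ 2 := by
  obtain ⟨i, -, hi⟩ := Finset.exists_max_image Finset.univ l ⟨0, Finset.mem_univ _⟩
  obtain ⟨j, -, hj⟩ := Finset.exists_min_image Finset.univ l ⟨0, Finset.mem_univ _⟩
  refine ⟨l i, -l j, ⟨i, rfl⟩, ⟨j, by ring⟩, ?_, ?_, ?_, ?_, ?_, ?_⟩
  all_goals
    have a0 := hi 0 (Finset.mem_univ _)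
    have a1 := hi 1 (Finset.mem_univ _)
    have a2 := hi 2 (Finset.mem_univ _)
    have b0 := hj 0 (Finset.mem_univ _)
    have b1 := hj 1 (Finset.mem_univ _)
    have b2 := hj 2 (Finset.mem_univ _)
    have c0 := mul_nonneg (sub_nonneg.2 a0) (sub_nonneg.2 b0)
    have c1 := mul_nonneg (sub_nonneg.2 a1) (sub_nonneg.2 b1)
    have c2 := mul_nonneg (sub_nonneg.2 a2) (sub_nonneg.2 b2)
    rw [Fin.sum_univ_three] at h0
    try rw [Fin.sum_univ_three]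
  · linarith
  · linarith
  · nlinarith
  · have hp : 0 ≤ l i := by linarith
    have hq : -l j ≤ 2 * l i := by fin_cases j <;> simp at * <;> linarith
    nlinarith
  · have hp : 0 ≤ -l j := by linarith
    have hq : l i ≤ 2 * (-l j) := by fin_cases i <;> simp at * <;> linarith
    nlinarith
  · fin_cases i <;> fin_cases j <;>
      simp only [Fin.isValue, Fin.zero_eta, Fin.mk_one, Fin.reduceFinMk] at * <;> nlinarith

/-! ### the curvature operator -/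

variable (K : Fin 4 → Fin 4 → Fin 4 → Fin 4 → ℝ)

/-- the self-dual block -/
noncomputable def mA : Matrix (Fin 3) (Fin 3) ℝ := Matrix.of fun p q =>
  -(kk K (pr p) (pr q) + kk K (pr p) (ps q) + kk K (ps p) (pr q) + kk K (ps p) (ps q)) / 2

/-- the anti-self-dual block -/
noncomputable def mD : Matrix (Fin 3) (Fin 3) ℝ := Matrix.of fun p q =>
  -(kk K (pr p) (pr q) - kk K (pr p) (ps q) - kk K (ps p) (pr q) + kk K (ps p) (ps q)) / 2

/-- the mixed block -/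
noncomputable def mB : Matrix (Fin 3) (Fin 3) ℝ := Matrix.of fun p q =>
  -(kk K (pr p) (pr q) - kk K (pr p) (ps q) + kk K (ps p) (pr q) - kk K (ps p) (ps q)) / 2

variable {K}

theorem kk_symm (hK : IsACT K) (P Q : Fin 4 × Fin 4) : kk K P Q = kk K Q P := hK.pair _ _ _ _

theorem mA_symm (hK : IsACT K) : (mA K).IsSymm := by
  refine Matrix.IsSymm.ext fun i j => ?_
  simp only [mA, Matrix.of_apply]
  rw [kk_symm hK (pr j) (pr i), kk_symm hK (pr j) (ps i), kk_symm hK (ps j) (pr i),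
    kk_symm hK (ps j) (ps i)]
  ring

theorem mD_symm (hK : IsACT K) : (mD K).IsSymm := by
  refine Matrix.IsSymm.ext fun i j => ?_
  simp only [mD, Matrix.of_apply]
  rw [kk_symm hK (pr j) (pr i), kk_symm hK (pr j) (ps i), kk_symm hK (ps j) (pr i),
    kk_symm hK (ps j) (ps i)]
  ring

theorem E4_eq (hK : IsACT K) : E4 K = 16 * (nsq (mA K) + nsq (mD K) - 2 * nsq (mB K)) := by
  simp only [E4, nsq, mA, mD, mB, Matrix.of_apply, Fin.sum_univ_three]
  rw [kk_symm hK (pr 1) (pr 0), kk_symm hK (pr 2) (pr 0), kk_symm hK (pr 2) (pr 1),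
    kk_symm hK (ps 1) (ps 0), kk_symm hK (ps 2) (ps 0), kk_symm hK (ps 2) (ps 1),
    kk_symm hK (ps 0) (pr 0), kk_symm hK (ps 0) (pr 1), kk_symm hK (ps 0) (pr 2),
    kk_symm hK (ps 1) (pr 0), kk_symm hK (ps 1) (pr 1), kk_symm hK (ps 1) (pr 2),
    kk_symm hK (ps 2) (pr 0), kk_symm hK (ps 2) (pr 1), kk_symm hK (ps 2) (pr 2)]
  ring

/-- sums over antisymmetric indices -/
theorem half (f : Fin 4 → Fin 4 → ℝ) (hf : ∀ a b, f a b = - f b a) (x y : Fin 4 → ℝ) :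
    ∑ a, ∑ b, f a b * (x a * y b) =
      ∑ p, (f (pr p).1 (pr p).2 * (x (pr p).1 * y (pr p).2 - x (pr p).2 * y (pr p).1) +
        f (ps p).1 (ps p).2 * (x (ps p).1 * y (ps p).2 - x (ps p).2 * y (ps p).1)) := by
  have h0 : f 0 0 = 0 := by have := hf 0 0; linarith
  have h1 : f 1 1 = 0 := by have := hf 1 1; linarith
  have h2 : f 2 2 = 0 := by have := hf 2 2; linarith
  have h3 : f 3 3 = 0 := by have := hf 3 3; linarith
  simp only [Fin.sum_univ_four, Fin.sum_univ_three, pr, ps, Matrix.cons_val_zero,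
    Matrix.cons_val_one, Matrix.cons_val]
  rw [h0, h1, h2, h3, hf 1 0, hf 2 0, hf 3 0, hf 2 1, hf 3 2, hf 1 3]
  ring

theorem asum (f g : Fin 4 → Fin 4 → ℝ) (hf : ∀ a b, f a b = - f b a)
    (hg : ∀ a b, g a b = - g b a) :
    ∑ a, ∑ b, f a b * g a b =
      2 * ∑ p, (f (pr p).1 (pr p).2 * g (pr p).1 (pr p).2 +
        f (ps p).1 (ps p).2 * g (ps p).1 (ps p).2) := by
  have h0 : f 0 0 = 0 := by have := hf 0 0; linarith
  have h1 : f 1 1 = 0 := by have := hf 1 1; linarith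
  have h2 : f 2 2 = 0 := by have := hf 2 2; linarith
  have h3 : f 3 3 = 0 := by have := hf 3 3; linarith
  simp only [Fin.sum_univ_four, Fin.sum_univ_three, pr, ps, Matrix.cons_val_zero,
    Matrix.cons_val_one, Matrix.cons_val]
  rw [h0, h1, h2, h3, hf 1 0, hf 2 0, hf 3 0, hf 2 1, hf 3 2, hf 1 3,
    hg 1 0, hg 2 0, hg 3 0, hg 2 1, hg 3 2, hg 1 3]
  ring

theorem pont_eq (hK : IsACT K) : pont K = nsq (mA K) - nsq (mD K) := by
  have h1 : pont K = ∑ p, ∑ a, ∑ b, K (pr p).1 (pr p).2 a b * K (ps p).1 (ps p).2 a b := by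
    simp only [pont, Fin.sum_univ_three, pr, ps, Matrix.cons_val_zero, Matrix.cons_val_one,
      Matrix.cons_val]
    rw [← Finset.sum_add_distrib, ← Finset.sum_add_distrib]
    refine Finset.sum_congr rfl fun a _ => ?_
    rw [← Finset.sum_add_distrib, ← Finset.sum_add_distrib]
    refine Finset.sum_congr rfl fun b _ => ?_
    rw [hK.anti 3 1]
    ring
  have h2 : ∀ p, ∑ a, ∑ b, K (pr p).1 (pr p).2 a b * K (ps p).1 (ps p).2 a b =
      2 * ∑ q, (kk K (pr p) (pr q) * kk K (ps p) (pr q) +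
        kk K (pr p) (ps q) * kk K (ps p) (ps q)) := fun p =>
    asum _ _ (fun a b => hK.anti' _ _ a b) (fun a b => hK.anti' _ _ a b)
  rw [h1, Finset.sum_congr rfl fun p _ => h2 p]
  simp only [nsq, mA, mD, Matrix.of_apply, Fin.sum_univ_three]
  rw [kk_symm hK (pr 1) (pr 0), kk_symm hK (pr 2) (pr 0), kk_symm hK (pr 2) (pr 1),
    kk_symm hK (ps 1) (ps 0), kk_symm hK (ps 2) (ps 0), kk_symm hK (ps 2) (ps 1),
    kk_symm hK (ps 0) (pr 0), kk_symm hK (ps 0) (pr 1), kk_symm hK (ps 0) (pr 2),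
    kk_symm hK (ps 1) (pr 0), kk_symm hK (ps 1) (pr 1), kk_symm hK (ps 1) (pr 2),
    kk_symm hK (ps 2) (pr 0), kk_symm hK (ps 2) (pr 1), kk_symm hK (ps 2) (pr 2)]
  ring

theorem tr_aux (hK : IsACT K) : K 0 1 2 3 + K 0 2 3 1 + K 0 3 1 2 = 0 := by
  have h := hK.bianchi 1 2 3 0
  rw [hK.pair 1 2 3 0, hK.anti 3 0 1 2, hK.pair 2 3 1 0, hK.anti 1 0 2 3, hK.pair 3 1 2 0,
    hK.anti 2 0 3 1] at h
  linarith

theorem sg_eq (hK : IsACT K) : 6 * sg K = -(K 0 1 0 1 + K 0 2 0 2 + K 0 3 0 3 + K 2 3 2 3 +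
    K 3 1 3 1 + K 1 2 1 2) := by
  have h0 : ∀ a, K a a a a = 0 := fun a => by have := hK.anti a a a a; linarith
  have hs : ∀ a b, K a b b a = - K a b a b := fun a b => hK.anti' a b b a
  have hs' : ∀ a b, K b a b a = K a b a b := fun a b => by
    rw [hK.anti b a b a, hK.anti' a b b a]; ring
  simp only [sg, Fin.sum_univ_four]
  rw [hs 0 1, hs 0 2, hs 0 3, hs 1 0, hs 1 2, hs 1 3, hs 2 0, hs 2 1, hs 2 3, hs 3 0, hs 3 1,
    hs 3 2, hs' 0 1, hs' 0 2, hs' 0 3, hs' 1 2, hs' 3 1, hs' 2 3, h0, h0, h0, h0]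
  ring

theorem mA_trace (hK : IsACT K) : (mA K).trace = 3 * sg K := by
  have h1 := tr_aux hK
  have h2 := sg_eq hK
  simp only [Matrix.trace, Matrix.diag, mA, Matrix.of_apply, Fin.sum_univ_three]
  rw [kk_symm hK (ps 0) (pr 0), kk_symm hK (ps 1) (pr 1), kk_symm hK (ps 2) (pr 2)]
  simp only [kk, pr, ps, Matrix.cons_val_zero, Matrix.cons_val_one, Matrix.cons_val]
  linarith

theorem mD_trace (hK : IsACT K) : (mD K).trace = 3 * sg K := by
  have h1 := tr_aux hK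
  have h2 := sg_eq hK
  simp only [Matrix.trace, Matrix.diag, mD, Matrix.of_apply, Fin.sum_univ_three]
  rw [kk_symm hK (ps 0) (pr 0), kk_symm hK (ps 1) (pr 1), kk_symm hK (ps 2) (pr 2)]
  simp only [kk, pr, ps, Matrix.cons_val_zero, Matrix.cons_val_one, Matrix.cons_val]
  linarith

/-- the value of the curvature at the plane of `u, v` -/
noncomputable def val (K : Fin 4 → Fin 4 → Fin 4 → Fin 4 → ℝ) (u v : Fin 3 → ℝ) : ℝ :=
  (u ⬝ᵥ (mA K *ᵥ u) + v ⬝ᵥ (mD K *ᵥ v)) / 2 + u ⬝ᵥ (mB K *ᵥ v)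

theorem sec4_eq (hK : IsACT K) (x y : Fin 4 → ℝ) (m : ℝ) (u v : Fin 3 → ℝ)
    (h1 : ∀ p, x (pr p).1 * y (pr p).2 - x (pr p).2 * y (pr p).1 = m * (u p + v p) / 2)
    (h2 : ∀ p, x (ps p).1 * y (ps p).2 - x (ps p).2 * y (ps p).1 = m * (u p - v p) / 2) :
    sec4 K x y = m ^ 2 * val K u v := by
  obtain ⟨f, hf⟩ : ∃ f : Fin 4 → Fin 4 → ℝ, ∀ a b, f a b = ∑ c, ∑ d, K a b c d * (y c * x d) :=
    ⟨_, fun _ _ => rfl⟩
  have hfa : ∀ a b, f a b = - f b a := by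
    intro a b
    rw [hf, hf, ← Finset.sum_neg_distrib]
    refine Finset.sum_congr rfl fun c _ => ?_
    rw [← Finset.sum_neg_distrib]
    refine Finset.sum_congr rfl fun d _ => ?_
    rw [hK.anti a b c d]; ring
  have e1 : sec4 K x y = ∑ a, ∑ b, f a b * (x a * y b) := by
    unfold sec4
    refine Finset.sum_congr rfl fun a _ => Finset.sum_congr rfl fun b _ => ?_
    rw [hf, Finset.sum_mul]
    refine Finset.sum_congr rfl fun c _ => ?_
    rw [Finset.sum_mul]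
    exact Finset.sum_congr rfl fun d _ => by ring
  have e2 : ∀ a b, f a b = ∑ q, (K a b (pr q).1 (pr q).2 * -(m * (u q + v q) / 2) +
      K a b (ps q).1 (ps q).2 * -(m * (u q - v q) / 2)) := by
    intro a b
    rw [hf, half (fun c d => K a b c d) (fun c d => hK.anti' a b c d) y x]
    refine Finset.sum_congr rfl fun q _ => ?_
    rw [← h1 q, ← h2 q]
    ring
  rw [e1, half f hfa x y]
  simp only [h1, h2, e2]
  simp only [val, dotProduct, Matrix.mulVec, mA, mD, mB, Matrix.of_apply, Fin.sum_univ_three]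
  have hk : ∀ P Q : Fin 4 × Fin 4, K P.1 P.2 Q.1 Q.2 = kk K P Q := fun _ _ => rfl
  simp only [hk]
  rw [kk_symm hK (pr 1) (pr 0), kk_symm hK (pr 2) (pr 0), kk_symm hK (pr 2) (pr 1),
    kk_symm hK (ps 1) (ps 0), kk_symm hK (ps 2) (ps 0), kk_symm hK (ps 2) (ps 1),
    kk_symm hK (ps 0) (pr 0), kk_symm hK (ps 0) (pr 1), kk_symm hK (ps 0) (pr 2),
    kk_symm hK (ps 1) (pr 0), kk_symm hK (ps 1) (pr 1), kk_symm hK (ps 1) (pr 2),
    kk_symm hK (ps 2) (pr 0), kk_symm hK (ps 2) (pr 1), kk_symm hK (ps 2) (pr 2)]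
  ring

theorem ar4_eq (x y : Fin 4 → ℝ) (m : ℝ) (u v : Fin 3 → ℝ) (hu : u ⬝ᵥ u = 1) (hv : v ⬝ᵥ v = 1)
    (h1 : ∀ p, x (pr p).1 * y (pr p).2 - x (pr p).2 * y (pr p).1 = m * (u p + v p) / 2)
    (h2 : ∀ p, x (ps p).1 * y (ps p).2 - x (ps p).2 * y (ps p).1 = m * (u p - v p) / 2) :
    ar4 x y = m ^ 2 := by
  have e1 : ar4 x y = ∑ p, ((x (pr p).1 * y (pr p).2 - x (pr p).2 * y (pr p).1) ^ 2 +
      (x (ps p).1 * y (ps p).2 - x (ps p).2 * y (ps p).1) ^ 2) := by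
    simp only [ar4, Fin.sum_univ_four, Fin.sum_univ_three, pr, ps, Matrix.cons_val_zero,
      Matrix.cons_val_one, Matrix.cons_val]
    ring
  rw [e1]
  simp only [h1, h2]
  simp only [dotProduct, Fin.sum_univ_three] at hu hv ⊢
  linear_combination (m ^ 2 / 2) * hu + (m ^ 2 / 2) * hv

/-- every pair of unit vectors comes from a plane -/
theorem exists_plane (u v : Fin 3 → ℝ) (hu : u ⬝ᵥ u = 1) (hv : v ⬝ᵥ v = 1) :
    ∃ (x y : Fin 4 → ℝ) (m : ℝ), 0 < m ∧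
      (∀ p, x (pr p).1 * y (pr p).2 - x (pr p).2 * y (pr p).1 = m * (u p + v p) / 2) ∧
      (∀ p, x (ps p).1 * y (ps p).2 - x (ps p).2 * y (ps p).1 = m * (u p - v p) / 2) := by
  simp only [dotProduct, Fin.sum_univ_three] at hu hv
  obtain ⟨c, hc⟩ : ∃ c, c = u 0 * v 0 + u 1 * v 1 + u 2 * v 2 := ⟨_, rfl⟩
  have hc0 : 0 ≤ 1 + c := by
    nlinarith [sq_nonneg (u 0 + v 0), sq_nonneg (u 1 + v 1), sq_nonneg (u 2 + v 2)]
  rcases hc0.lt_or_eq with h | h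
  · refine ⟨![1 + c, -(u 1 * v 2 - u 2 * v 1), -(u 2 * v 0 - u 0 * v 2),
      -(u 0 * v 1 - u 1 * v 0)], ![0, u 0 + v 0, u 1 + v 1, u 2 + v 2], 2 * (1 + c),
      by positivity, ?_, ?_⟩
    · intro p
      fin_cases p <;>
        simp [pr] <;> ring
    · intro p
      fin_cases p <;>
        simp [ps, hc]
      · linear_combination (u 0) * hv - (v 0) * hu
      · linear_combination (u 1) * hv - (v 1) * hu
      · linear_combination (u 2) * hv - (v 2) * hu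
  · -- the opposite case
    have hs : (u 0 + v 0) ^ 2 + (u 1 + v 1) ^ 2 + (u 2 + v 2) ^ 2 = 0 := by
      linear_combination hu + hv - 2 * hc + 2 * h.symm
    have h0 : v 0 = - u 0 := by
      nlinarith [sq_nonneg (u 0 + v 0), sq_nonneg (u 1 + v 1), sq_nonneg (u 2 + v 2)]
    have h1 : v 1 = - u 1 := by
      nlinarith [sq_nonneg (u 0 + v 0), sq_nonneg (u 1 + v 1), sq_nonneg (u 2 + v 2)]
    have h2 : v 2 = - u 2 := by
      nlinarith [sq_nonneg (u 0 + v 0), sq_nonneg (u 1 + v 1), sq_nonneg (u 2 + v 2)]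
    by_cases h3 : u 0 ^ 2 < 1
    · refine ⟨![0, 0, -u 2, u 1], ![0, 1 - u 0 ^ 2, - u 0 * u 1, - u 0 * u 2], 1 - u 0 ^ 2,
        by linarith, ?_, ?_⟩
      · intro p
        fin_cases p <;> simp [pr, h0, h1, h2]
      · intro p
        fin_cases p <;> simp [ps, h0, h1, h2]
        · linear_combination (u 0) * hu
        · ring
        · ring
    · have h4 : u 1 ^ 2 < 1 := by nlinarith [sq_nonneg (u 1), sq_nonneg (u 2)]
      refine ⟨![0, u 2, 0, -u 0], ![0, - u 1 * u 0, 1 - u 1 ^ 2, - u 1 * u 2], 1 - u 1 ^ 2,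
        by linarith, ?_, ?_⟩
      · intro p
        fin_cases p <;> simp [pr, h0, h1, h2]
      · intro p
        fin_cases p <;> simp [ps, h0, h1, h2]
        · ring
        · linear_combination (u 1) * hu
        · ring

/-! ### real inequalities -/

theorem real1 {x y p q r s σ : ℝ} (hp : 0 ≤ p) (hq : 0 ≤ q) (hr : 0 ≤ r) (hs : 0 ≤ s)
    (hx : 0 ≤ x) (hy : 0 ≤ y) (h1 : x ≤ 3 * p * q) (h2 : y ≤ 3 * r * s)
    (h3 : p + r ≤ 2 * (1 - σ)) (h4 : q + s ≤ 2 * (1 + σ)) :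
    x + y + 6 * σ ^ 2 ≤ 6 + |x - y| / 2 := by
  have hpq : 0 ≤ p * q := mul_nonneg hp hq
  have hrs : 0 ≤ r * s := mul_nonneg hr hs
  have hps : 0 ≤ p * s := mul_nonneg hp hs
  have hrq : 0 ≤ r * q := mul_nonneg hr hq
  have h5 : x * y ≤ (3 / 2 * (p * s + r * q)) ^ 2 := by
    have h6 : x * y ≤ (3 * p * q) * (3 * r * s) := mul_le_mul h1 h2 hy (by positivity)
    nlinarith [sq_nonneg (p * s - r * q)]
  have h6 : (p + r) * (q + s) ≤ 2 * (1 - σ) * (2 * (1 + σ)) :=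
    mul_le_mul h3 h4 (by positivity) (by linarith)
  rcases le_total y x with h | h
  · have h7 : y ≤ 3 / 2 * (p * s + r * q) := by
      refine le_of_sq_le_sq ?_ (by positivity)
      nlinarith
    rw [abs_of_nonneg (by linarith)]
    nlinarith
  · have h7 : x ≤ 3 / 2 * (p * s + r * q) := by
      refine le_of_sq_le_sq ?_ (by positivity)
      nlinarith
    rw [abs_of_nonpos (by linarith)]
    nlinarith

theorem real2 {x y p r σ : ℝ} (hp : 0 ≤ p) (hr : 0 ≤ r) (h1 : x ≤ 6 * p ^ 2)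
    (h2 : y ≤ 6 * r ^ 2) (h3 : p + r ≤ 2 * (1 - σ)) :
    x + y + 6 * σ ^ 2 ≤ 6 * (σ ^ 2 + 4 * (1 - σ) ^ 2) := by
  have h4 : (p + r) ^ 2 ≤ (2 * (1 - σ)) ^ 2 := pow_le_pow_left₀ (by positivity) h3 2
  nlinarith [mul_nonneg hp hr]

theorem real3 {x y p q r s σ c : ℝ} (hc0 : 0 ≤ c) (hc1 : c ≤ 1) (hp : 0 ≤ p) (hq : 0 ≤ q)
    (hr : 0 ≤ r) (hs : 0 ≤ s) (h1 : x ≤ 6 * p ^ 2) (h2 : y ≤ 6 * r ^ 2) (h1' : x ≤ 6 * q ^ 2)
    (h2' : y ≤ 6 * s ^ 2) (h1'' : 3 / 2 * x ≤ (p + q) ^ 2) (h2'' : 3 / 2 * y ≤ (r + s) ^ 2)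
    (h3 : p + r ≤ 2 * (1 - σ)) (h4 : q + s ≤ 2 * (c + σ)) :
    x + y + 6 * σ ^ 2 ≤ 6 * max 1 ((8 + 4 * c + 5 * c ^ 2) / 9) := by
  have hσ1 : σ ≤ 1 := by linarith
  have hσ2 : -c ≤ σ := by linarith
  have a1 : x + y + 6 * σ ^ 2 ≤ 6 * (σ ^ 2 + 4 * (1 - σ) ^ 2) := real2 hp hr h1 h2 h3
  have a2 : x + y + 6 * σ ^ 2 ≤ 6 * (σ ^ 2 + 4 * (c + σ) ^ 2) := by
    have h5 : (q + s) ^ 2 ≤ (2 * (c + σ)) ^ 2 := pow_le_pow_left₀ (by positivity) h4 2
    nlinarith [mul_nonneg hq hs]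
  have a3 : x + y + 6 * σ ^ 2 ≤ 6 * (σ ^ 2 + 4 / 9 * (1 + c) ^ 2) := by
    have h5 : (p + q + (r + s)) ^ 2 ≤ (2 * (1 + c)) ^ 2 :=
      pow_le_pow_left₀ (by positivity) (by linarith) 2
    nlinarith [mul_nonneg (add_nonneg hp hq) (add_nonneg hr hs)]
  have b1 : (1 : ℝ) ≤ max 1 ((8 + 4 * c + 5 * c ^ 2) / 9) := le_max_left _ _
  have b2 : (8 + 4 * c + 5 * c ^ 2) / 9 ≤ max 1 ((8 + 4 * c + 5 * c ^ 2) / 9) := le_max_right _ _
  rcases le_total ((2 - c) / 3) σ with h | h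
  · -- convex function on an interval
    have h6 : 0 ≤ (σ - (2 - c) / 3) * (1 - σ) := mul_nonneg (by linarith) (by linarith)
    have h7 : σ ^ 2 + 4 * (1 - σ) ^ 2 ≤ max 1 ((8 + 4 * c + 5 * c ^ 2) / 9) := by
      by_cases h8 : 5 * ((2 - c) / 3) ≤ 3
      · -- increasing in the chord sense: bounded by the value at one end
        nlinarith
      · nlinarith
    linarith
  · rcases le_total (-((2 - c) / 3)) σ with h' | h'
    · have h7 : σ ^ 2 + 4 / 9 * (1 + c) ^ 2 ≤ (8 + 4 * c + 5 * c ^ 2) / 9 := by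
        nlinarith [mul_nonneg (sub_nonneg.2 h) (by linarith : (0 : ℝ) ≤ σ + (2 - c) / 3)]
      linarith
    · have h6 : 0 ≤ (σ + c) * (-((2 - c) / 3) - σ) := mul_nonneg (by linarith) (by linarith)
      have h7 : σ ^ 2 + 4 * (c + σ) ^ 2 ≤ max 1 ((8 + 4 * c + 5 * c ^ 2) / 9) := by
        nlinarith
      linarith

/-! ### the inequalities for the integrand -/

/-- the data extracted from a curvature tensor -/
theorem data (hK : IsACT K) : ∃ (l k : Fin 3 → ℝ) (e f : Fin 3 → Fin 3 → ℝ),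
    (∀ i, e i ⬝ᵥ e i = 1) ∧ (∀ i, f i ⬝ᵥ f i = 1) ∧ ∑ i, l i = 0 ∧ ∑ i, k i = 0 ∧
    (∀ i j, val K (e i) (f j) + val K (e i) (-f j) = 2 * sg K + l i + k j) ∧
    nsq (mA K) = ∑ i, l i ^ 2 + 3 * sg K ^ 2 ∧ nsq (mD K) = ∑ i, k i ^ 2 + 3 * sg K ^ 2 := by
  obtain ⟨l, e, he, hl, hls, hlq⟩ := spec (mA K) (mA_symm hK)
  obtain ⟨k, f, hf, hk, hks, hkq⟩ := spec (mD K) (mD_symm hK)
  rw [mA_trace hK] at hls
  rw [mD_trace hK] at hks
  refine ⟨fun i => l i - sg K, fun i => k i - sg K, e, f, he, hf, ?_, ?_, ?_, ?_, ?_⟩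
  · rw [Fin.sum_univ_three] at hls ⊢; linarith
  · rw [Fin.sum_univ_three] at hks ⊢; linarith
  · intro i j
    have e1 : val K (e i) (f j) + val K (e i) (-f j) = l i + k j := by
      simp only [val, Matrix.mulVec_neg, dotProduct_neg, neg_dotProduct, neg_neg, hl, hk]
      ring
    rw [e1]; ring
  · rw [← hlq, Fin.sum_univ_three, Fin.sum_univ_three]
    rw [Fin.sum_univ_three] at hls
    linear_combination 2 * sg K * hls
  · rw [← hkq, Fin.sum_univ_three, Fin.sum_univ_three]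
    rw [Fin.sum_univ_three] at hks
    linear_combination 2 * sg K * hks

theorem val_le (hK : IsACT K) {k' : ℝ} (h : ∀ u v, sec4 K u v ≤ k' * ar4 u v) (u v : Fin 3 → ℝ)
    (hu : u ⬝ᵥ u = 1) (hv : v ⬝ᵥ v = 1) : val K u v ≤ k' := by
  obtain ⟨x, y, m, hm, h1, h2⟩ := exists_plane u v hu hv
  have h3 := h x y
  rw [sec4_eq hK x y m u v h1 h2, ar4_eq x y m u v hu hv h1 h2, mul_comm k'] at h3
  exact le_of_mul_le_mul_left h3 (by positivity)

theorem le_val (hK : IsACT K) {k' : ℝ} (h : ∀ u v, k' * ar4 u v ≤ sec4 K u v) (u v : Fin 3 → ℝ)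
    (hu : u ⬝ᵥ u = 1) (hv : v ⬝ᵥ v = 1) : k' ≤ val K u v := by
  obtain ⟨x, y, m, hm, h1, h2⟩ := exists_plane u v hu hv
  have h3 := h x y
  rw [sec4_eq hK x y m u v h1 h2, ar4_eq x y m u v hu hv h1 h2, mul_comm k'] at h3
  exact le_of_mul_le_mul_left h3 (by positivity)

theorem neg_unit {v : Fin 3 → ℝ} (hv : v ⬝ᵥ v = 1) : (-v) ⬝ᵥ (-v) = 1 := by
  rw [neg_dotProduct, dotProduct_neg, neg_neg, hv]

/-- **ALG1** -/
theorem alg1 (hK : IsACT K) (h1 : ∀ u v, sec4 K u v ≤ ar4 u v)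
    (h2 : ∀ u v, -ar4 u v ≤ sec4 K u v) : E4 K ≤ 96 + 8 * |pont K| := by
  obtain ⟨l, k, e, f, he, hf, hl, hk, hv, hA, hD⟩ := data hK
  have u1 := fun i j => val_le hK (k' := 1) (fun u v => by simpa using h1 u v) (e i) (f j)
    (he i) (hf j)
  have u2 := fun i j => val_le hK (k' := 1) (fun u v => by simpa using h1 u v) (e i) (-f j)
    (he i) (neg_unit (hf j))
  have w1 := fun i j => le_val hK (k' := -1) (fun u v => by simpa using h2 u v) (e i) (f j)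
    (he i) (hf j)
  have w2 := fun i j => le_val hK (k' := -1) (fun u v => by simpa using h2 u v) (e i) (-f j)
    (he i) (neg_unit (hf j))
  obtain ⟨p, q, ⟨i1, hi1⟩, ⟨i2, hi2⟩, hp, hq, hpq, -, -, -⟩ := triple l hl
  obtain ⟨r, s, ⟨j1, hj1⟩, ⟨j2, hj2⟩, hr, hs, hrs, -, -, -⟩ := triple k hk
  have h3 : p + r ≤ 2 * (1 - sg K) := by
    have := hv i1 j1
    rw [hi1, hj1] at this
    linarith [u1 i1 j1, u2 i1 j1]
  have h4 : q + s ≤ 2 * (1 + sg K) := by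
    have := hv i2 j2
    rw [hi2, hj2] at this
    linarith [w1 i2 j2, w2 i2 j2]
  have h5 := real1 hp hq hr hs (Finset.sum_nonneg fun i _ => sq_nonneg (l i))
    (Finset.sum_nonneg fun i _ => sq_nonneg (k i)) hpq hrs h3 h4
  have h6 : pont K = ∑ i, l i ^ 2 - ∑ i, k i ^ 2 := by rw [pont_eq hK, hA, hD]; ring
  rw [h6, E4_eq hK, hA, hD]
  linarith [nsq_nonneg (mB K)]

/-- **ALG2** -/
theorem alg2 (hK : IsACT K) (h1 : ∀ u v, sec4 K u v ≤ ar4 u v) :
    E4 K ≤ 96 * (sg K ^ 2 + 4 * (1 - sg K) ^ 2) := by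
  obtain ⟨l, k, e, f, he, hf, hl, hk, hv, hA, hD⟩ := data hK
  have u1 := fun i j => val_le hK (k' := 1) (fun u v => by simpa using h1 u v) (e i) (f j)
    (he i) (hf j)
  have u2 := fun i j => val_le hK (k' := 1) (fun u v => by simpa using h1 u v) (e i) (-f j)
    (he i) (neg_unit (hf j))
  obtain ⟨p, q, ⟨i1, hi1⟩, -, hp, hq, -, hpp, -, -⟩ := triple l hl
  obtain ⟨r, s, ⟨j1, hj1⟩, -, hr, hs, -, hrr, -, -⟩ := triple k hk
  have h3 : p + r ≤ 2 * (1 - sg K) := by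
    have := hv i1 j1
    rw [hi1, hj1] at this
    linarith [u1 i1 j1, u2 i1 j1]
  have h5 := real2 hp hr hpp hrr h3
  rw [E4_eq hK, hA, hD]
  linarith [nsq_nonneg (mB K)]

/-- **ALG3** -/
theorem alg3 (hK : IsACT K) {c : ℝ} (hc0 : 0 ≤ c) (hc1 : c ≤ 1)
    (h1 : ∀ u v, sec4 K u v ≤ ar4 u v) (h2 : ∀ u v, -(c * ar4 u v) ≤ sec4 K u v) :
    E4 K ≤ 96 * max 1 ((8 + 4 * c + 5 * c ^ 2) / 9) := by
  obtain ⟨l, k, e, f, he, hf, hl, hk, hv, hA, hD⟩ := data hK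
  have u1 := fun i j => val_le hK (k' := 1) (fun u v => by simpa using h1 u v) (e i) (f j)
    (he i) (hf j)
  have u2 := fun i j => val_le hK (k' := 1) (fun u v => by simpa using h1 u v) (e i) (-f j)
    (he i) (neg_unit (hf j))
  have w1 := fun i j => le_val hK (k' := -c) (fun u v => by simpa using h2 u v) (e i) (f j)
    (he i) (hf j)
  have w2 := fun i j => le_val hK (k' := -c) (fun u v => by simpa using h2 u v) (e i) (-f j)
    (he i) (neg_unit (hf j))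
  obtain ⟨p, q, ⟨i1, hi1⟩, ⟨i2, hi2⟩, hp, hq, -, hpp, hqq, hpq⟩ := triple l hl
  obtain ⟨r, s, ⟨j1, hj1⟩, ⟨j2, hj2⟩, hr, hs, -, hrr, hss, hrs⟩ := triple k hk
  have h3 : p + r ≤ 2 * (1 - sg K) := by
    have := hv i1 j1
    rw [hi1, hj1] at this
    linarith [u1 i1 j1, u2 i1 j1]
  have h4 : q + s ≤ 2 * (c + sg K) := by
    have := hv i2 j2
    rw [hi2, hj2] at this
    linarith [w1 i2 j2, w2 i2 j2]
  have h5 := real3 hc0 hc1 hp hq hr hs hpp hrr hqq hss hpq hrs h3 h4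
  rw [E4_eq hK, hA, hD]
  linarith [nsq_nonneg (mB K)]

end Pool.Agent.GBS.H92
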