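import Pool.Agent.Helper92_GBS.ALG2

/-!
# GBS: the sharp pointwise inequality with twice the trace-free Ricci term

For `|K| ≤ 1`: `(|W₊| + |W₋|)² + 12 σ² + 4 |B|² ≤ 12`, hence
`E4 ≤ 96 + 8 |pont| - 16 |Ric₀|²`.  Proof (helper49): the S-lemma (Thorpe's trick) on `ℝ³ × ℝ³` and
positivity of the trace of a product of positive semidefinite matrices.
-/

set_option autoImplicit false

open Matrix

namespace Pool.Agent.GBS.H92

open Pool.Agent.GBS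

/-! ### the S-lemma -/

theorem slemma {V : Type} [AddCommGroup V] [Module ℝ V] (q S : V → ℝ)
    (hq : ∀ z y, ∃ c : ℝ, ∀ r : ℝ, q (r • z + y) = r ^ 2 * q z + r * c + q y)
    (hS : ∀ z y, ∃ c : ℝ, ∀ r : ℝ, S (r • z + y) = r ^ 2 * S z + r * c + S y)
    (h : ∀ z, S z = 0 → 0 ≤ q z) (hp : ∃ z, 0 < S z) (hn : ∃ y, S y < 0) :
    ∃ t : ℝ, ∀ z, 0 ≤ q z + t * S z := by
  have key : ∀ z y, 0 < S z → S y < 0 → 0 ≤ (-S y) * q z + S z * q y := by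
    intro z y hz hy
    obtain ⟨c, hc⟩ := hS z y
    obtain ⟨d, hd⟩ := hq z y
    obtain ⟨m, hm⟩ : ∃ m, m = S z := ⟨_, rfl⟩
    obtain ⟨n, hnn⟩ : ∃ n, n = -S y := ⟨_, rfl⟩
    have hm0 : 0 < m := by rw [hm]; exact hz
    have hn0 : 0 < n := by rw [hnn]; linarith
    obtain ⟨r, hr⟩ : ∃ r, r = Real.sqrt (c ^ 2 + 4 * m * n) := ⟨_, rfl⟩
    have hr2 : r ^ 2 = c ^ 2 + 4 * m * n := by
      rw [hr]; exact Real.sq_sqrt (by positivity)
    have hr0 : 0 ≤ r := by rw [hr]; exact Real.sqrt_nonneg _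
    have hrc : |c| < r := by
      refine abs_lt_of_sq_lt_sq ?_ hr0
      nlinarith [mul_pos hm0 hn0]
    obtain ⟨hrc1, hrc2⟩ := abs_lt.1 hrc
    -- the two null directions
    have e1 : S (((-c + r) / (2 * m)) • z + y) = 0 := by
      rw [hc, ← hm]
      have : S y = -n := by rw [hnn]; ring
      rw [this]
      field_simp
      nlinarith
    have e2 : S (((-c - r) / (2 * m)) • z + y) = 0 := by
      rw [hc, ← hm]
      have : S y = -n := by rw [hnn]; ring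
      rw [this]
      field_simp
      nlinarith
    have f1 := h _ e1
    have f2 := h _ e2
    rw [hd] at f1 f2
    have w1 : 0 ≤ (c + r) / (2 * m) := by
      apply div_nonneg <;> linarith
    have w2 : 0 ≤ (-c + r) / (2 * m) := by
      apply div_nonneg <;> linarith
    have g := add_nonneg (mul_nonneg w1 f1) (mul_nonneg w2 f2)
    have e3 : (c + r) / (2 * m) * (((-c + r) / (2 * m)) ^ 2 * q z + (-c + r) / (2 * m) * d + q y) +
        (-c + r) / (2 * m) * (((-c - r) / (2 * m)) ^ 2 * q z + (-c - r) / (2 * m) * d + q y) =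
        (r / m ^ 2) * (n * q z + m * q y) := by
      have e4 : (r - c) * (r + c) = 4 * m * n := by linarith [hr2, sq_nonneg r]
      have e5 : (c + r) / (2 * m) * ((-c + r) / (2 * m)) ^ 2 +
          (-c + r) / (2 * m) * ((-c - r) / (2 * m)) ^ 2 = r / m ^ 2 * n := by
        field_simp
        linear_combination (2 * r) * e4
      have e6 : (c + r) / (2 * m) * ((-c + r) / (2 * m)) +
          (-c + r) / (2 * m) * ((-c - r) / (2 * m)) = 0 := by ring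
      have e7 : (c + r) / (2 * m) + (-c + r) / (2 * m) = r / m ^ 2 * m := by
        field_simp
        ring
      linear_combination q z * e5 + d * e6 + q y * e7
    rw [e3] at g
    have hrp : 0 < r := by linarith [abs_nonneg c]
    rw [← hm, ← hnn]
    exact nonneg_of_mul_nonneg_right g (by positivity)
  obtain ⟨z0, hz0⟩ := hp
  obtain ⟨y0, hy0⟩ := hn
  obtain ⟨T, hT⟩ : ∃ T : Set ℝ, T = {t | ∃ z, 0 < S z ∧ t = -q z / S z} := ⟨_, rfl⟩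
  have hTn : T.Nonempty := ⟨-q z0 / S z0, by rw [hT]; exact ⟨z0, hz0, rfl⟩⟩
  have hTb : ∀ y, S y < 0 → ∀ t ∈ T, t ≤ q y / (-S y) := by
    intro y hy t ht
    rw [hT] at ht
    obtain ⟨z, hz, rfl⟩ := ht
    have h1 := key z y hz hy
    rw [div_le_div_iff₀ hz (by linarith)]
    linarith
  have hTB : BddAbove T := ⟨q y0 / (-S y0), hTb y0 hy0⟩
  refine ⟨sSup T, fun z => ?_⟩
  rcases lt_trichotomy (S z) 0 with hz | hz | hz
  · have h1 : sSup T ≤ q z / (-S z) := csSup_le hTn (hTb z hz)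
    rw [le_div_iff₀ (by linarith)] at h1
    linarith
  · rw [hz, mul_zero, add_zero]
    exact h z hz
  · have h1 : -q z / S z ≤ sSup T := le_csSup hTB (by rw [hT]; exact ⟨z, hz, rfl⟩)
    rw [div_le_iff₀ hz] at h1
    linarith

/-! ### block matrices -/

abbrev I6 : Type := Fin 3 ⊕ Fin 3

theorem quad_expand (M : Matrix I6 I6 ℝ) (z y : I6 → ℝ) (r : ℝ) :
    (r • z + y) ⬝ᵥ (M *ᵥ (r • z + y)) = r ^ 2 * (z ⬝ᵥ (M *ᵥ z)) +
      r * (z ⬝ᵥ (M *ᵥ y) + y ⬝ᵥ (M *ᵥ z)) + y ⬝ᵥ (M *ᵥ y) := by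
  simp only [Matrix.mulVec_add, Matrix.mulVec_smul, dotProduct_add, add_dotProduct,
    smul_dotProduct, dotProduct_smul, smul_eq_mul]
  ring

theorem block_quad (P Q R T : Matrix (Fin 3) (Fin 3) ℝ) (z : I6 → ℝ) :
    z ⬝ᵥ (Matrix.fromBlocks P Q R T *ᵥ z) =
      (z ∘ Sum.inl) ⬝ᵥ (P *ᵥ (z ∘ Sum.inl)) + (z ∘ Sum.inl) ⬝ᵥ (Q *ᵥ (z ∘ Sum.inr)) +
      (z ∘ Sum.inr) ⬝ᵥ (R *ᵥ (z ∘ Sum.inl)) + (z ∘ Sum.inr) ⬝ᵥ (T *ᵥ (z ∘ Sum.inr)) := by
  rw [Matrix.fromBlocks_mulVec]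
  have h1 : z = Sum.elim (z ∘ Sum.inl) (z ∘ Sum.inr) := (Sum.elim_comp_inl_inr z).symm
  conv_lhs => rw [h1]
  rw [sumElim_dotProduct_sumElim, dotProduct_add, dotProduct_add]
  simp only [Sum.elim_comp_inl, Sum.elim_comp_inr]
  ring

theorem trace_mul_nonneg {m : Type} [Fintype m] [DecidableEq m] {M N : Matrix m m ℝ}
    (hM : M.PosSemidef) (hN : ∀ x : m → ℝ, 0 ≤ x ⬝ᵥ (N *ᵥ x)) : 0 ≤ (M * N).trace := by
  obtain ⟨k, v, hv⟩ := Matrix.posSemidef_iff_eq_sum_vecMulVec.1 hM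
  have h1 : (M * N).trace = ∑ i, v i ⬝ᵥ (N *ᵥ v i) := by
    rw [hv, Finset.sum_mul, Matrix.trace_sum]
    refine Finset.sum_congr rfl fun i _ => ?_
    simp only [Matrix.trace, Matrix.diag, Matrix.mul_apply, Matrix.vecMulVec_apply,
      dotProduct, Matrix.mulVec, star_trivial]
    rw [Finset.sum_comm]
    refine Finset.sum_congr rfl fun a _ => ?_
    rw [Finset.mul_sum]
    refine Finset.sum_congr rfl fun b _ => ?_
    ring
  rw [h1]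
  exact Finset.sum_nonneg fun i _ => hN _

variable {K : Fin 4 → Fin 4 → Fin 4 → Fin 4 → ℝ}

/-- Thorpe's trick -/
theorem thorpe (A D B : Matrix (Fin 3) (Fin 3) ℝ) {k' : ℝ}
    (h : ∀ u v : Fin 3 → ℝ, u ⬝ᵥ u = 1 → v ⬝ᵥ v = 1 →
      (u ⬝ᵥ (A *ᵥ u) + v ⬝ᵥ (D *ᵥ v)) / 2 + u ⬝ᵥ (B *ᵥ v) ≤ k') :
    ∃ t : ℝ, ∀ u v : Fin 3 → ℝ, 0 ≤ (k' + t) * (u ⬝ᵥ u) - u ⬝ᵥ (A *ᵥ u)
      - 2 * (u ⬝ᵥ (B *ᵥ v)) + (k' - t) * (v ⬝ᵥ v) - v ⬝ᵥ (D *ᵥ v) := by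
  obtain ⟨q, hq⟩ : ∃ q : (Fin 3 → ℝ) × (Fin 3 → ℝ) → ℝ, ∀ z, q z = k' * (z.1 ⬝ᵥ z.1) -
      z.1 ⬝ᵥ (A *ᵥ z.1) - 2 * (z.1 ⬝ᵥ (B *ᵥ z.2)) + k' * (z.2 ⬝ᵥ z.2) - z.2 ⬝ᵥ (D *ᵥ z.2) :=
    ⟨_, fun _ => rfl⟩
  obtain ⟨S, hS⟩ : ∃ S : (Fin 3 → ℝ) × (Fin 3 → ℝ) → ℝ, ∀ z, S z = z.1 ⬝ᵥ z.1 - z.2 ⬝ᵥ z.2 :=
    ⟨_, fun _ => rfl⟩
  have h1 : ∃ t : ℝ, ∀ z, 0 ≤ q z + t * S z := by
    refine slemma q S ?_ ?_ ?_ ?_ ?_
    · intro z y
      refine ⟨k' * (z.1 ⬝ᵥ y.1 + y.1 ⬝ᵥ z.1) - (z.1 ⬝ᵥ (A *ᵥ y.1) + y.1 ⬝ᵥ (A *ᵥ z.1)) -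
        2 * (z.1 ⬝ᵥ (B *ᵥ y.2) + y.1 ⬝ᵥ (B *ᵥ z.2)) + k' * (z.2 ⬝ᵥ y.2 + y.2 ⬝ᵥ z.2) -
        (z.2 ⬝ᵥ (D *ᵥ y.2) + y.2 ⬝ᵥ (D *ᵥ z.2)), fun r => ?_⟩
      simp only [hq, Prod.fst_add, Prod.snd_add, Prod.smul_fst, Prod.smul_snd,
        Matrix.mulVec_add, Matrix.mulVec_smul, dotProduct_add, add_dotProduct,
        smul_dotProduct, dotProduct_smul, smul_eq_mul]
      ring
    · intro z y
      refine ⟨(z.1 ⬝ᵥ y.1 + y.1 ⬝ᵥ z.1) - (z.2 ⬝ᵥ y.2 + y.2 ⬝ᵥ z.2), fun r => ?_⟩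
      simp only [hS, Prod.fst_add, Prod.snd_add, Prod.smul_fst, Prod.smul_snd,
        dotProduct_add, add_dotProduct, smul_dotProduct, dotProduct_smul, smul_eq_mul]
      ring
    · rintro ⟨u, v⟩ huv
      rw [hS] at huv
      rw [hq]
      simp only at huv ⊢
      by_cases h0 : u ⬝ᵥ u = 0
      · have hv0 : v ⬝ᵥ v = 0 := by linarith
        have hu : u = 0 := dotProduct_self_eq_zero.1 h0
        have hv : v = 0 := dotProduct_self_eq_zero.1 hv0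
        rw [hu, hv]; simp
      · have hp : 0 < u ⬝ᵥ u := lt_of_le_of_ne
          (Finset.sum_nonneg fun i _ => mul_self_nonneg (u i)) (Ne.symm h0)
        obtain ⟨m, hm, hm2⟩ : ∃ m : ℝ, 0 < m ∧ m ^ 2 = u ⬝ᵥ u :=
          ⟨Real.sqrt (u ⬝ᵥ u), Real.sqrt_pos.2 hp, Real.sq_sqrt hp.le⟩
        have hu1 : (m⁻¹ • u) ⬝ᵥ (m⁻¹ • u) = 1 := by
          rw [smul_dotProduct, dotProduct_smul, smul_eq_mul, smul_eq_mul, ← hm2]
          field_simp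
        have hv1 : (m⁻¹ • v) ⬝ᵥ (m⁻¹ • v) = 1 := by
          have e : v ⬝ᵥ v = m ^ 2 := by linarith
          rw [smul_dotProduct, dotProduct_smul, smul_eq_mul, smul_eq_mul, e]
          field_simp
        have h2 := h _ _ hu1 hv1
        simp only [Matrix.mulVec_smul, smul_dotProduct, dotProduct_smul, smul_eq_mul] at h2
        have e1 : (m⁻¹ * (m⁻¹ * (u ⬝ᵥ (A *ᵥ u))) + m⁻¹ * (m⁻¹ * (v ⬝ᵥ (D *ᵥ v)))) / 2 +
            m⁻¹ * (m⁻¹ * (u ⬝ᵥ (B *ᵥ v))) =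
            ((u ⬝ᵥ (A *ᵥ u) + v ⬝ᵥ (D *ᵥ v)) / 2 + u ⬝ᵥ (B *ᵥ v)) / m ^ 2 := by
          field_simp
        rw [e1, div_le_iff₀ (by positivity), hm2] at h2
        have e : v ⬝ᵥ v = u ⬝ᵥ u := by linarith
        rw [e]
        linarith
    · refine ⟨(Pi.single 0 1, 0), ?_⟩
      rw [hS]; simp
    · refine ⟨(0, Pi.single 0 1), ?_⟩
      rw [hS]; simp
  obtain ⟨t, ht⟩ := h1
  refine ⟨t, fun u v => ?_⟩
  have h2 := ht (u, v)
  rw [hq, hS] at h2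
  simp only at h2
  linarith

/-- the trace inequality for the two positive block matrices -/
theorem trace_blocks (A D B : Matrix (Fin 3) (Fin 3) ℝ) (hA : A.IsSymm) (hD : D.IsSymm)
    {k k' t1 t2 : ℝ}
    (h1 : ∀ u v : Fin 3 → ℝ, 0 ≤ (k' + t1) * (u ⬝ᵥ u) - u ⬝ᵥ (A *ᵥ u)
      - 2 * (u ⬝ᵥ (B *ᵥ v)) + (k' - t1) * (v ⬝ᵥ v) - v ⬝ᵥ (D *ᵥ v))
    (h2 : ∀ u v : Fin 3 → ℝ, 0 ≤ (-k + t2) * (u ⬝ᵥ u) + u ⬝ᵥ (A *ᵥ u)
      + 2 * (u ⬝ᵥ (B *ᵥ v)) + (-k - t2) * (v ⬝ᵥ v) + v ⬝ᵥ (D *ᵥ v)) (s : ℝ) (hs : 0 < s) :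
    2 * nsq B ≤ s * (3 * (k' + t1) * (-k + t2) + (k' + t1 - (-k + t2)) * A.trace - nsq A) +
      s⁻¹ * (3 * (k' - t1) * (-k - t2) + (k' - t1 - (-k - t2)) * D.trace - nsq D) := by
  have hsA : ∀ i j, A i j = A j i := fun i j => (hA.apply j i)
  have hsD : ∀ i j, D i j = D j i := fun i j => (hD.apply j i)
  have hM : (Matrix.fromBlocks ((k' + t1) • (1 : Matrix (Fin 3) (Fin 3) ℝ) - A) (-B) (-Bᵀ)
      ((k' - t1) • (1 : Matrix (Fin 3) (Fin 3) ℝ) - D)).PosSemidef := by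
    refine Matrix.PosSemidef.of_dotProduct_mulVec_nonneg ?_ ?_
    · rw [Matrix.IsHermitian, Matrix.conjTranspose_eq_transpose_of_trivial,
        Matrix.fromBlocks_transpose, Matrix.transpose_sub, Matrix.transpose_smul,
        Matrix.transpose_one, hA.eq, Matrix.transpose_neg, Matrix.transpose_transpose,
        Matrix.transpose_neg, Matrix.transpose_sub, Matrix.transpose_smul,
        Matrix.transpose_one, hD.eq]
    · intro z
      rw [star_trivial, block_quad]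
      have h3 := h1 (z ∘ Sum.inl) (z ∘ Sum.inr)
      have e1 : (z ∘ Sum.inr) ⬝ᵥ (Bᵀ *ᵥ (z ∘ Sum.inl)) = (z ∘ Sum.inl) ⬝ᵥ (B *ᵥ (z ∘ Sum.inr)) := by
        rw [Matrix.mulVec_transpose, dotProduct_comm, Matrix.dotProduct_mulVec]
      simp only [Matrix.sub_mulVec, Matrix.smul_mulVec, Matrix.one_mulVec, Matrix.neg_mulVec,
        dotProduct_sub, dotProduct_smul, dotProduct_neg, smul_eq_mul]
      rw [e1]
      linarith
  have hN : ∀ z : I6 → ℝ, 0 ≤ z ⬝ᵥ (Matrix.fromBlocks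
      (s • ((-k + t2) • (1 : Matrix (Fin 3) (Fin 3) ℝ) + A)) B Bᵀ
      (s⁻¹ • ((-k - t2) • (1 : Matrix (Fin 3) (Fin 3) ℝ) + D)) *ᵥ z) := by
    intro z
    rw [block_quad]
    have h3 := h2 (Real.sqrt s • (z ∘ Sum.inl)) ((Real.sqrt s)⁻¹ • (z ∘ Sum.inr))
    have e1 : (z ∘ Sum.inr) ⬝ᵥ (Bᵀ *ᵥ (z ∘ Sum.inl)) = (z ∘ Sum.inl) ⬝ᵥ (B *ᵥ (z ∘ Sum.inr)) := by
      rw [Matrix.mulVec_transpose, dotProduct_comm, Matrix.dotProduct_mulVec]
    have hss : Real.sqrt s * Real.sqrt s = s := Real.mul_self_sqrt hs.le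
    have hsp : 0 < Real.sqrt s := Real.sqrt_pos.2 hs
    have hsi : (Real.sqrt s)⁻¹ * (Real.sqrt s)⁻¹ = s⁻¹ := by rw [← mul_inv, hss]
    have hs1 : Real.sqrt s * (Real.sqrt s)⁻¹ = 1 := mul_inv_cancel₀ hsp.ne'
    simp only [Matrix.mulVec_smul, smul_dotProduct, dotProduct_smul, smul_eq_mul] at h3
    simp only [Matrix.add_mulVec, Matrix.smul_mulVec, Matrix.one_mulVec,
      dotProduct_add, dotProduct_smul, smul_eq_mul]
    rw [e1]
    have e2 : (-k + t2) * (Real.sqrt s * (Real.sqrt s * (z ∘ Sum.inl) ⬝ᵥ (z ∘ Sum.inl))) +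
        Real.sqrt s * (Real.sqrt s * (z ∘ Sum.inl) ⬝ᵥ (A *ᵥ (z ∘ Sum.inl))) +
        2 * (Real.sqrt s * ((Real.sqrt s)⁻¹ * (z ∘ Sum.inl) ⬝ᵥ (B *ᵥ (z ∘ Sum.inr)))) +
        (-k - t2) * ((Real.sqrt s)⁻¹ * ((Real.sqrt s)⁻¹ * (z ∘ Sum.inr) ⬝ᵥ (z ∘ Sum.inr))) +
        (Real.sqrt s)⁻¹ * ((Real.sqrt s)⁻¹ * (z ∘ Sum.inr) ⬝ᵥ (D *ᵥ (z ∘ Sum.inr))) =
        (-k + t2) * ((Real.sqrt s * Real.sqrt s) * (z ∘ Sum.inl) ⬝ᵥ (z ∘ Sum.inl)) +
        (Real.sqrt s * Real.sqrt s) * (z ∘ Sum.inl) ⬝ᵥ (A *ᵥ (z ∘ Sum.inl)) +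
        2 * ((Real.sqrt s * (Real.sqrt s)⁻¹) * (z ∘ Sum.inl) ⬝ᵥ (B *ᵥ (z ∘ Sum.inr))) +
        (-k - t2) * (((Real.sqrt s)⁻¹ * (Real.sqrt s)⁻¹) * (z ∘ Sum.inr) ⬝ᵥ (z ∘ Sum.inr)) +
        ((Real.sqrt s)⁻¹ * (Real.sqrt s)⁻¹) * (z ∘ Sum.inr) ⬝ᵥ (D *ᵥ (z ∘ Sum.inr)) := by ring
    rw [hss, hsi, hs1, one_mul] at e2
    linarith
  have h3 := trace_mul_nonneg hM hN
  have e0 : ∀ P Q R T : Matrix (Fin 3) (Fin 3) ℝ,
      (Matrix.fromBlocks P Q R T).trace = P.trace + T.trace := by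
    intro P Q R T
    simp [Matrix.trace, Fintype.sum_sum_type]
  rw [Matrix.fromBlocks_multiply, e0] at h3
  have e1 : ((-B) * Bᵀ).trace = - nsq B := by
    rw [Matrix.neg_mul, Matrix.trace_neg]
    congr 1
    simp only [nsq, Matrix.trace, Matrix.diag, Matrix.mul_apply, Matrix.transpose_apply, sq]
  have e2 : ((-Bᵀ) * B).trace = - nsq B := by
    rw [Matrix.neg_mul, Matrix.trace_neg, Matrix.trace_mul_comm, ← Matrix.trace_neg,
      ← Matrix.neg_mul, e1]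
  have e3 : ∀ (X : Matrix (Fin 3) (Fin 3) ℝ) (α β : ℝ), (∀ i j, X i j = X j i) →
      ((α • (1 : Matrix (Fin 3) (Fin 3) ℝ) - X) *
        (β • (1 : Matrix (Fin 3) (Fin 3) ℝ) + X)).trace =
      3 * α * β + (α - β) * X.trace - nsq X := by
    intro X α β hX
    simp only [nsq, Matrix.trace, Matrix.diag, Matrix.mul_apply, Matrix.sub_apply,
      Matrix.add_apply, Matrix.smul_apply, Matrix.one_apply, Fin.sum_univ_three, smul_eq_mul]
    simp only [Fin.isValue, if_true, Fin.reduceEq, if_false]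
    rw [hX 1 0, hX 2 0, hX 2 1]
    ring
  rw [Matrix.trace_add, Matrix.trace_add, Matrix.mul_smul, Matrix.mul_smul, Matrix.trace_smul,
    Matrix.trace_smul, e1, e2, e3 A _ _ hsA, e3 D _ _ hsD, smul_eq_mul, smul_eq_mul] at h3
  linarith

/-- the real inequality -/
theorem real4 {S T β x y p p' q q' : ℝ} (hβ : 0 ≤ β) (hp : 0 ≤ p)
    (hp' : 0 ≤ p') (hq : 0 ≤ q) (hq' : 0 ≤ q') (hx0 : 0 ≤ x) (hy0 : 0 ≤ y)
    (hx : x = 3 * p * q - S ^ 2) (hy : y = 3 * p' * q' - T ^ 2)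
    (h : ∀ s : ℝ, 0 < s → 2 * β ≤ s * x + s⁻¹ * y) :
    (S + T) ^ 2 + 4 * β ≤ 3 * (p + p') * (q + q') := by
  -- `x y ≥ β²`
  have hxy : β ^ 2 ≤ x * y := by
    rcases hβ.eq_or_lt with hb | hb
    · rw [← hb]; nlinarith [mul_nonneg hx0 hy0]
    · rcases hx0.eq_or_lt with hx1 | hx1
      · exfalso
        have h1 := h (y / (2 * β) + 1) (by positivity)
        have h2 : 0 < y / (2 * β) + 1 := by positivity
        rw [← hx1, mul_zero, zero_add, inv_mul_eq_div, le_div_iff₀ h2] at h1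
        have h3 : 2 * β * (y / (2 * β)) = y := by field_simp
        nlinarith
      · have h1 := h (β / x) (by positivity)
        have h2 : β / x * x = β := by field_simp
        have h3 : (β / x)⁻¹ * y = x * y / β := by field_simp
        rw [h2, h3] at h1
        have h4 : β ≤ x * y / β := by linarith
        rw [le_div_iff₀ hb] at h4
        nlinarith
  have h1 : 2 * β ≤ x + y := by
    refine le_of_sq_le_sq ?_ (by linarith)
    nlinarith [sq_nonneg (x - y)]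
  have h2 : 2 * (S * T * β) ≤ S ^ 2 * y + T ^ 2 * x := by
    refine le_of_sq_le_sq ?_ (by positivity)
    have h3 : S ^ 2 * T ^ 2 * β ^ 2 ≤ S ^ 2 * T ^ 2 * (x * y) :=
      mul_le_mul_of_nonneg_left hxy (by positivity)
    nlinarith [sq_nonneg (S ^ 2 * y - T ^ 2 * x)]
  have h3 : 2 * (S * T + β) ≤ 3 * (p * q' + p' * q) := by
    refine le_of_sq_le_sq ?_ (by positivity)
    have h4 : (S * T + β) ^ 2 ≤ (S ^ 2 + x) * (T ^ 2 + y) := by nlinarith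
    have e1 : S ^ 2 + x = 3 * p * q := by linarith
    have e2 : T ^ 2 + y = 3 * p' * q' := by linarith
    rw [e1, e2] at h4
    nlinarith [sq_nonneg (p * q' - p' * q)]
  nlinarith

/-- the sharp pinching inequality -/
theorem pinch (hK : IsACT K) {k k' : ℝ} (h1 : ∀ u v, sec4 K u v ≤ k' * ar4 u v)
    (h2 : ∀ u v, k * ar4 u v ≤ sec4 K u v) :
    (Real.sqrt (nsq (mA K) - 3 * sg K ^ 2) + Real.sqrt (nsq (mD K) - 3 * sg K ^ 2)) ^ 2 +
      4 * nsq (mB K) ≤ 12 * (k' - sg K) * (sg K - k) := by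
  obtain ⟨l, kk', e, f, he, hf, hl, hk, hv, hA, hD⟩ := data hK
  have hSA : 0 ≤ nsq (mA K) - 3 * sg K ^ 2 := by
    rw [hA, add_sub_cancel_right]
    exact Finset.sum_nonneg fun i _ => sq_nonneg _
  have hSD : 0 ≤ nsq (mD K) - 3 * sg K ^ 2 := by
    rw [hD, add_sub_cancel_right]
    exact Finset.sum_nonneg fun i _ => sq_nonneg _
  obtain ⟨t1, ht1⟩ := thorpe (mA K) (mD K) (mB K) (k' := k')
    (fun u v hu hv => val_le hK h1 u v hu hv)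
  obtain ⟨t2, ht2⟩ := thorpe (-mA K) (-mD K) (-mB K) (k' := -k) (fun u v hu hv => by
    have h3 := le_val hK h2 u v hu hv
    simp only [Matrix.neg_mulVec, dotProduct_neg]
    unfold val at h3
    linarith)
  have ht2' : ∀ u v : Fin 3 → ℝ, 0 ≤ (-k + t2) * (u ⬝ᵥ u) + u ⬝ᵥ (mA K *ᵥ u)
      + 2 * (u ⬝ᵥ (mB K *ᵥ v)) + (-k - t2) * (v ⬝ᵥ v) + v ⬝ᵥ (mD K *ᵥ v) := by
    intro u v
    have h3 := ht2 u v
    simp only [Matrix.neg_mulVec, dotProduct_neg] at h3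
    linarith
  have htr := fun s hs => trace_blocks (mA K) (mD K) (mB K) (mA_symm hK) (mD_symm hK)
    (k := k) ht1 ht2' s hs
  rw [mA_trace hK, mD_trace hK] at htr
  -- nonnegativity of the traces of the blocks
  have hq : ∀ (X : Matrix (Fin 3) (Fin 3) ℝ) (c : ℝ), (∀ u : Fin 3 → ℝ,
      0 ≤ c * (u ⬝ᵥ u) - u ⬝ᵥ (X *ᵥ u)) → X.trace ≤ 3 * c := by
    intro X c hX
    have a0 := hX (Pi.single 0 1)
    have a1 := hX (Pi.single 1 1)
    have a2 := hX (Pi.single 2 1)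
    simp at a0 a1 a2
    simp only [Matrix.trace, Matrix.diag, Fin.sum_univ_three]
    linarith
  have b1 := hq (mA K) (k' + t1) (fun u => by have := ht1 u 0; simpa using this)
  have b2 := hq (mD K) (k' - t1) (fun u => by
    have := ht1 0 u; simp at this; linarith)
  have b3 := hq (-mA K) (-k + t2) (fun u => by have := ht2 u 0; simpa using this)
  have b4 := hq (-mD K) (-k - t2) (fun u => by
    have := ht2 0 u; simp at this; linarith)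
  rw [Matrix.trace_neg] at b3 b4
  rw [mA_trace hK] at b1 b3
  rw [mD_trace hK] at b2 b4
  -- nonnegativity of `x, y`
  have hxx : ∀ (X : Matrix (Fin 3) (Fin 3) ℝ) (α β : ℝ), X.IsSymm →
      (∀ u : Fin 3 → ℝ, 0 ≤ α * (u ⬝ᵥ u) - u ⬝ᵥ (X *ᵥ u)) →
      (∀ u : Fin 3 → ℝ, 0 ≤ β * (u ⬝ᵥ u) + u ⬝ᵥ (X *ᵥ u)) →
      0 ≤ 3 * α * β + (α - β) * X.trace - nsq X := by
    intro X α β hX hα hβ
    obtain ⟨lam, e', he', hl', hls, hlq⟩ := spec X hX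
    rw [← hls, ← hlq]
    have c : ∀ i, 0 ≤ (α - lam i) * (β + lam i) := by
      intro i
      refine mul_nonneg ?_ ?_
      · have := hα (e' i); rw [he', hl'] at this; linarith
      · have := hβ (e' i); rw [he', hl'] at this; linarith
    have c0 := c 0
    have c1 := c 1
    have c2 := c 2
    simp only [Fin.sum_univ_three]
    nlinarith
  have hx0 := hxx (mA K) (k' + t1) (-k + t2) (mA_symm hK)
    (fun u => by have := ht1 u 0; simpa using this)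
    (fun u => by have := ht2' u 0; simpa using this)
  have hy0 := hxx (mD K) (k' - t1) (-k - t2) (mD_symm hK)
    (fun u => by have := ht1 0 u; simp at this; linarith)
    (fun u => by have := ht2' 0 u; simp at this; linarith)
  rw [mA_trace hK] at hx0
  rw [mD_trace hK] at hy0
  have h5 := real4 (S := Real.sqrt (nsq (mA K) - 3 * sg K ^ 2))
    (T := Real.sqrt (nsq (mD K) - 3 * sg K ^ 2)) (β := nsq (mB K))
    (p := k' - sg K + t1) (p' := k' - sg K - t1) (q := sg K - k + t2) (q' := sg K - k - t2)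
    (nsq_nonneg _)
    (by linarith) (by linarith) (by linarith) (by linarith) hx0 hy0
    (by rw [Real.sq_sqrt hSA]; ring) (by rw [Real.sq_sqrt hSD]; ring) htr
  linarith

/-- **ALG1, final form**: twice the trace-free Ricci term -/
theorem alg1rr (hK : IsACT K) (h1 : ∀ u v, sec4 K u v ≤ ar4 u v)
    (h2 : ∀ u v, -ar4 u v ≤ sec4 K u v) : E4 K ≤ 96 + 8 * |pont K| - 16 * ric0 K := by
  obtain ⟨l, k, e, f, he, hf, hl, hk, hv, hA, hD⟩ := data hK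
  have h3 := pinch hK (k := -1) (k' := 1) (fun u v => by simpa using h1 u v)
    (fun u v => by simpa using h2 u v)
  have hSA : 0 ≤ nsq (mA K) - 3 * sg K ^ 2 := by
    rw [hA, add_sub_cancel_right]
    exact Finset.sum_nonneg fun i _ => sq_nonneg _
  have hSD : 0 ≤ nsq (mD K) - 3 * sg K ^ 2 := by
    rw [hD, add_sub_cancel_right]
    exact Finset.sum_nonneg fun i _ => sq_nonneg _
  obtain ⟨S, hS⟩ : ∃ S, S = Real.sqrt (nsq (mA K) - 3 * sg K ^ 2) := ⟨_, rfl⟩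
  obtain ⟨T, hT⟩ : ∃ T, T = Real.sqrt (nsq (mD K) - 3 * sg K ^ 2) := ⟨_, rfl⟩
  have hS0 : 0 ≤ S := by rw [hS]; exact Real.sqrt_nonneg _
  have hT0 : 0 ≤ T := by rw [hT]; exact Real.sqrt_nonneg _
  have hS2 : nsq (mA K) = S ^ 2 + 3 * sg K ^ 2 := by rw [hS, Real.sq_sqrt hSA]; ring
  have hT2 : nsq (mD K) = T ^ 2 + 3 * sg K ^ 2 := by rw [hT, Real.sq_sqrt hSD]; ring
  rw [← hS, ← hT] at h3
  have h6 : pont K = S ^ 2 - T ^ 2 := by rw [pont_eq hK, hS2, hT2]; ring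
  rw [h6, E4_eq hK, hS2, hT2, ← four_mB hK]
  rcases le_total T S with h | h
  · rw [abs_of_nonneg (by nlinarith)]
    nlinarith [mul_nonneg hT0 (sub_nonneg.2 h)]
  · rw [abs_of_nonpos (by nlinarith)]
    nlinarith [mul_nonneg hS0 (sub_nonneg.2 h)]

end Pool.Agent.GBS.H92
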