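import Pool.Agent.GBS.Stmts
import Pool.Agent.Helper36_RF.Chr
import Pool.Agent.Helper9_RF.Sym
import Pool.Agent.Helper5_RF.Cyl
import Pool.Agent.Helper14_MVS.SDF

/-!
# GBS, row CMP: matrix facts on the Levi-Civita connection of a cylinder metric
-/

noncomputable section

set_option autoImplicit false

open scoped ContDiff Topology RealInnerProductSpace
open Set MeasureTheory Matrix

namespace Pool.Agent.GBS.H92

open Pool.Agent.RF Pool.Agent.MVS Pool.Agent.GBS

/-- evaluation of a coordinate is a continuous linear map -/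
theorem fderiv_coord {f : E5 → E5} {x : E5} (hf : DifferentiableAt ℝ f x) (v : E5) (a : Fin 5) :
    fderiv ℝ (fun y => (f y) a) x v = (fderiv ℝ f x v) a := by
  have h1 : HasFDerivAt (fun y => (f y) a) ((EuclideanSpace.proj a : E5 →L[ℝ] ℝ).comp
      (fderiv ℝ f x)) x :=
    (EuclideanSpace.proj a : E5 →L[ℝ] ℝ).hasFDerivAt.comp x hf.hasFDerivAt
  rw [h1.fderiv]
  rfl

theorem fderiv_bil {G : E5 → Bil E5} {x : E5} (hG : DifferentiableAt ℝ G x) (v a b : E5) :
    fderiv ℝ (fun y => G y a b) x v = fderiv ℝ G x v a b := by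
  have h1 := (hG.hasFDerivAt.clm_apply (hasFDerivAt_const a x)).clm_apply (hasFDerivAt_const b x)
  rw [h1.fderiv]
  simp

/-- expansion of a vector in the second argument of a bilinear form -/
theorem bil_right (B : Bil E5) (a : E5) (w : E5) : B a w = ∑ c, B a (eb c) * w c := by
  conv_lhs => rw [Pool.Agent.MVS.H14.eb_sum w]
  rw [map_sum]
  exact Finset.sum_congr rfl fun c _ => by rw [map_smul, smul_eq_mul, mul_comm]

theorem bil_left (B : Bil E5) (b : E5) (w : E5) : B w b = ∑ c, w c * B (eb c) b := by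
  conv_lhs => rw [Pool.Agent.MVS.H14.eb_sum w]
  rw [map_sum, _root_.sum_apply]
  exact Finset.sum_congr rfl fun c _ => by rw [map_smul, _root_.smul_apply, smul_eq_mul]

/-- CMP -/
theorem cmp : CmpStatement := by
  intro G hG x hx
  have hC := Pool.Agent.RF.chrStatement
  have hF := Pool.Agent.RF.H9.chrFacts hC hG.metric
  have hU := hG.metric.isOpen
  have hd : DifferentiableAt ℝ G x :=
    (hG.metric.smooth.contDiffAt (hU.mem_nhds hx)).differentiableAt (by simp)
  have hs := hG.metric.symm x hx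
  have hdet : 0 < (gm (G x)).det :=
    (Pool.Agent.MVS.H14.gm_posDef (G x) hs (hG.metric.pos x hx)).det_pos
  have hsym : (gm (G x))ᵀ = gm (G x) := by
    ext a b
    exact hs _ _
  -- expansion of the Christoffel symbols in the second argument
  have hce : ∀ u w, chris G x u w = ∑ c, w c • chris G x u (eb c) := by
    intro u w
    obtain ⟨L, hL⟩ : ∃ L : E5 →ₗ[ℝ] E5, ∀ w, L w = chris G x u w :=
      ⟨{ toFun := fun w => chris G x u w
         map_add' := fun w w' => hF.add' hx u w w'
         map_smul' := fun c w => hF.smul' hx c u w }, fun _ => rfl⟩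
    rw [← hL]
    conv_lhs => rw [Pool.Agent.MVS.H14.eb_sum w]
    rw [map_sum]
    exact Finset.sum_congr rfl fun c _ => by rw [map_smul, hL]
  have hsk : ∀ i j, gm (G x) * Rm G x i j = - ((Rm G x i j)ᵀ * gm (G x)) := by
    intro i j
    ext a b
    rw [Matrix.neg_apply, Matrix.mul_apply, Matrix.mul_apply]
    have e1 : ∑ c, gm (G x) a c * Rm G x i j c b = G x (eb a) (riem G x (eb i) (eb j) (eb b)) := by
      rw [bil_right]; rfl
    have e2 : ∑ c, (Rm G x i j)ᵀ a c * gm (G x) c b =
        G x (riem G x (eb i) (eb j) (eb a)) (eb b) := by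
      rw [bil_left]; rfl
    rw [e1, e2, hs (eb a), Pool.Agent.RF.H9.metric_skew hF hG.metric hx]
  refine ⟨hsym, hdet, ?_, ?_, ?_, ?_, ?_⟩
  · intro i a b
    have e1 : fderiv ℝ (fun y => gm (G y) a b) x (eb i) = fderiv ℝ G x (eb i) (eb a) (eb b) :=
      fderiv_bil hd _ _ _
    rw [e1, hF.compat hx _ _ _ hs, Matrix.add_apply, Matrix.mul_apply, Matrix.mul_apply,
      bil_left (G x) (eb b), bil_right (G x) (eb a), add_comm]
    rfl
  · intro i
    ext a
    have e1 : (Gam G x i *ᵥ cf x) a = (chris G x (eb i) x) a := by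
      rw [hce (eb i) x, WithLp.ofLp_sum, Finset.sum_apply]
      simp only [Matrix.mulVec, dotProduct, Gam, Matrix.of_apply, cf, PiLp.smul_apply, smul_eq_mul]
      exact Finset.sum_congr rfl fun c _ => mul_comm _ _
    rw [e1, Pool.Agent.RF.H5.cyl_chris_x hC hG hx]
    simp [eb, Pi.single_apply]
  · intro i j a b
    have hd1 : ∀ u w : E5, DifferentiableAt ℝ (fun y => chris G y u w) x := fun u w =>
      hF.diffAt hx hU u w
    have e1 : ∀ k l : Fin 5, fderiv ℝ (fun y => Gam G y k a b) x (eb l) =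
        (fderiv ℝ (fun y => chris G y (eb k) (eb b)) x (eb l)) a := fun k l =>
      fderiv_coord (hd1 _ _) _ _
    have e2 : ∀ k l : Fin 5, (Gam G x k * Gam G x l) a b =
        (chris G x (eb k) (chris G x (eb l) (eb b))) a := by
      intro k l
      rw [hce (eb k) (chris G x (eb l) (eb b)), WithLp.ofLp_sum, Finset.sum_apply,
        Matrix.mul_apply]
      simp only [Gam, Matrix.of_apply, PiLp.smul_apply, smul_eq_mul]
      exact Finset.sum_congr rfl fun c _ => mul_comm _ _
    rw [e1, e1, Matrix.sub_apply, e2, e2]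
    simp only [Rm, Matrix.of_apply, riem, PiLp.sub_apply, PiLp.add_apply]
    ring
  · intro i j
    have hu : IsUnit (gm (G x)).det := hdet.ne'.isUnit
    have hinv : ((gm (G x))⁻¹)ᵀ = (gm (G x))⁻¹ := by
      rw [Matrix.transpose_nonsing_inv, hsym]
    have e1 : (Sm G x i j)ᵀ = (gm (G x))⁻¹ * (Rm G x i j)ᵀ := by
      rw [Sm, Matrix.transpose_mul, hinv]
    have e2 : (Rm G x i j)ᵀ = - (gm (G x) * Rm G x i j * (gm (G x))⁻¹) := by
      rw [hsk, Matrix.neg_mul, neg_neg, Matrix.mul_assoc, Matrix.mul_nonsing_inv _ hu,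
        Matrix.mul_one]
    rw [e1, e2, Matrix.mul_neg, Matrix.mul_assoc, ← Matrix.mul_assoc,
      Matrix.nonsing_inv_mul _ hu, Matrix.one_mul, Sm]
  · ext a
    have e1 : (gm (G x) *ᵥ cf x) a = G x (eb a) x := by
      rw [bil_right]; rfl
    rw [e1, hs, hG.radial x hx]
    simp only [Pi.smul_apply, smul_eq_mul, cf, eb]
    rw [EuclideanSpace.inner_single_right]
    simp
    ring

end Pool.Agent.GBS.H92
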