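import Pool.Agent.GBS.StmtsB

/-!
# GBS, row EPT: naturality of `eps` under the frame matrix
-/

noncomputable section

set_option autoImplicit false

open scoped ContDiff Topology RealInnerProductSpace
open Set MeasureTheory Matrix

namespace Pool.Agent.GBS.H92

open Pool.Agent.RF Pool.Agent.MVS Pool.Agent.GBS

theorem row_mul (s : Fin 5) (M : M5) (j : Fin 5) :
    ∑ k, (Pi.single s 1 : Fin 5 → ℝ) k * M k j = M s j := by
  rw [Finset.sum_eq_single s]
  · simp
  · intro k _ hk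
    rw [Pi.single_eq_of_ne hk, zero_mul]
  · intro h; exact absurd (Finset.mem_univ s) h

/-- the matrix with rows `c e_0, e_α, e_β, e_γ, e_δ` times `M` -/
theorem sel_mul (c : ℝ) (M : M5) (α β γ δ : Fin 5) :
    (Matrix.of ![c • M 0, M α, M β, M γ, M δ] : M5) =
      Matrix.diagonal ![c, 1, 1, 1, 1] * (Matrix.of ![Pi.single 0 1, Pi.single α 1,
        Pi.single β 1, Pi.single γ 1, Pi.single δ 1] * M) := by
  ext i j
  rw [Matrix.diagonal_mul, Matrix.mul_apply]
  fin_cases i <;> simp only [Matrix.of_apply, Fin.zero_eta, Fin.mk_one, Fin.reduceFinMk,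
    Matrix.cons_val_zero, Matrix.cons_val_one, Matrix.cons_val, row_mul, Pi.smul_apply,
    smul_eq_mul, one_mul]

theorem sel_det (c : ℝ) (M : M5) (α β γ δ : Fin 5) :
    (Matrix.of ![c • M 0, M α, M β, M γ, M δ] : M5).det =
      c * (eps (Pi.single 0 1) α β γ δ * M.det) := by
  rw [sel_mul, Matrix.det_mul, Matrix.det_mul, Matrix.det_diagonal, eps]
  simp [Fin.prod_univ_succ]

/-- EPT -/
theorem ept (epd : EpdStmt) (emx : EmxStmt) : EptStmt := by
  intro G x F hG hx hF α β γ δ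
  obtain ⟨-, h2, h3, -, -, -, h7, -⟩ := emx G x F hG hx hF
  constructor
  · rw [epd (cf x) (fun a => Em x F a α) (fun b => Em x F b β) (fun c => Em x F c γ)
      (fun d => Em x F d δ)]
    have e1 := sel_det 1 (Em x F)ᵀ α β γ δ
    rw [Matrix.det_transpose, one_mul] at e1
    have e2 : (1 : ℝ) • (Em x F)ᵀ 0 = cf x := by
      funext i
      rw [one_smul]
      rfl
    rw [e2] at e1
    rw [mul_comm, ← e1]
    rfl
  · rw [epd (cf x) (fun i => (Em x F)⁻¹ α i) (fun j => (Em x F)⁻¹ β j)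
      (fun k => (Em x F)⁻¹ γ k) (fun l => (Em x F)⁻¹ δ l)]
    have hx0 : ‖x‖ ^ 2 ≠ 0 := pow_ne_zero 2 (norm_ne_zero_iff.2 hx)
    have e1 := sel_det (‖x‖ ^ 2) (Em x F)⁻¹ α β γ δ
    have e2 : (‖x‖ ^ 2) • (Em x F)⁻¹ 0 = cf x := by
      funext i
      rw [Pi.smul_apply, smul_eq_mul, h7 i]
      exact mul_div_cancel₀ _ hx0
    rw [e2] at e1
    have e3 : ((Em x F)⁻¹).det = ((Em x F).det)⁻¹ := by
      rw [Matrix.det_nonsing_inv, Ring.inverse_eq_inv']
    rw [e3] at e1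
    have e4 : (Matrix.of ![cf x, fun i => (Em x F)⁻¹ α i, fun j => (Em x F)⁻¹ β j,
        fun k => (Em x F)⁻¹ γ k, fun l => (Em x F)⁻¹ δ l] : M5).det =
        ‖x‖ ^ 2 * (eps (Pi.single 0 1) α β γ δ * ((Em x F).det)⁻¹) := e1
    rw [e4, ← mul_assoc, inv_mul_cancel₀ hx0, one_mul, mul_comm]

end Pool.Agent.GBS.H92
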