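import Pool.Agent.Helper92_GBS.ALG

/-!
# GBS: the sharp inequality with the trace-free Ricci tensor
-/

set_option autoImplicit false

open Matrix

namespace Pool.Agent.GBS.H92

open Pool.Agent.GBS

/-- the squared norm of the trace-free Ricci tensor -/
noncomputable def ric0 (K : Fin 4 → Fin 4 → Fin 4 → Fin 4 → ℝ) : ℝ :=
  ∑ a, ∑ b, (∑ c, K c a b c) ^ 2 - (∑ a, ∑ b, K a b b a) ^ 2 / 4

variable {K : Fin 4 → Fin 4 → Fin 4 → Fin 4 → ℝ}

/-- `4 |B|² = |Ric₀|²` -/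
theorem four_mB (hK : IsACT K) : 4 * nsq (mB K) = ric0 K := by
  have h0 : ∀ a c d, K a a c d = 0 := fun a c d => by have := hK.anti a a c d; linarith
  have h1 : ∀ a b c, K a b c c = 0 := fun a b c => by have := hK.anti' a b c c; linarith
  have a10 : ∀ c d, K 1 0 c d = - K 0 1 c d := fun c d => hK.anti 1 0 c d
  have a20 : ∀ c d, K 2 0 c d = - K 0 2 c d := fun c d => hK.anti 2 0 c d
  have a30 : ∀ c d, K 3 0 c d = - K 0 3 c d := fun c d => hK.anti 3 0 c d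
  have a21 : ∀ c d, K 2 1 c d = - K 1 2 c d := fun c d => hK.anti 2 1 c d
  have a31 : ∀ c d, K 3 1 c d = - K 1 3 c d := fun c d => hK.anti 3 1 c d
  have a32 : ∀ c d, K 3 2 c d = - K 2 3 c d := fun c d => hK.anti 3 2 c d
  have b10 : ∀ c d, K c d 1 0 = - K c d 0 1 := fun c d => hK.anti' c d 1 0
  have b20 : ∀ c d, K c d 2 0 = - K c d 0 2 := fun c d => hK.anti' c d 2 0
  have b30 : ∀ c d, K c d 3 0 = - K c d 0 3 := fun c d => hK.anti' c d 3 0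
  have b21 : ∀ c d, K c d 2 1 = - K c d 1 2 := fun c d => hK.anti' c d 2 1
  have b31 : ∀ c d, K c d 3 1 = - K c d 1 3 := fun c d => hK.anti' c d 3 1
  have b32 : ∀ c d, K c d 3 2 = - K c d 2 3 := fun c d => hK.anti' c d 3 2
  have p1 : K 0 2 0 1 = K 0 1 0 2 := hK.pair _ _ _ _
  have p2 : K 0 3 0 1 = K 0 1 0 3 := hK.pair _ _ _ _
  have p3 : K 1 2 0 1 = K 0 1 1 2 := hK.pair _ _ _ _
  have p4 : K 1 3 0 1 = K 0 1 1 3 := hK.pair _ _ _ _
  have p5 : K 2 3 0 1 = K 0 1 2 3 := hK.pair _ _ _ _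
  have p6 : K 0 3 0 2 = K 0 2 0 3 := hK.pair _ _ _ _
  have p7 : K 1 2 0 2 = K 0 2 1 2 := hK.pair _ _ _ _
  have p8 : K 1 3 0 2 = K 0 2 1 3 := hK.pair _ _ _ _
  have p9 : K 2 3 0 2 = K 0 2 2 3 := hK.pair _ _ _ _
  have q1 : K 1 2 0 3 = K 0 3 1 2 := hK.pair _ _ _ _
  have q2 : K 1 3 0 3 = K 0 3 1 3 := hK.pair _ _ _ _
  have q3 : K 2 3 0 3 = K 0 3 2 3 := hK.pair _ _ _ _
  have q4 : K 1 3 1 2 = K 1 2 1 3 := hK.pair _ _ _ _
  have q5 : K 2 3 1 2 = K 1 2 2 3 := hK.pair _ _ _ _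
  have q6 : K 2 3 1 3 = K 1 3 2 3 := hK.pair _ _ _ _
  simp only [ric0, nsq, mB, Matrix.of_apply, kk, pr, ps, Fin.sum_univ_four, Fin.sum_univ_three,
    Matrix.cons_val_zero, Matrix.cons_val_one, Matrix.cons_val]
  simp only [h0, h1, a10, a20, a30, a21, a31, a32, b10, b20, b30, b21, b31, b32,
    p1, p2, p3, p4, p5, p6, p7, p8, p9, q1, q2, q3, q4, q5, q6]
  ring

/-- **ALG1, sharp form with the trace-free Ricci tensor** -/
theorem alg1r (hK : IsACT K) (h1 : ∀ u v, sec4 K u v ≤ ar4 u v)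
    (h2 : ∀ u v, -ar4 u v ≤ sec4 K u v) : E4 K ≤ 96 + 8 * |pont K| - 8 * ric0 K := by
  obtain ⟨l, k, e, f, he, hf, hl, hk, hv, hA, hD⟩ := data hK
  have u1 := fun i j => val_le hK (k' := 1) (fun u v => by simpa using h1 u v) (e i) (f j)
    (he i) (hf j)
  have u2 := fun i j => val_le hK (k' := 1) (fun u v => by simpa using h1 u v) (e i) (-f j)
    (he i) (neg_unit (hf j))
  have w1 := fun i j => le_val hK (k' := -1) (fun u v => by simpa using h2 u v) (e i) (f j)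
    (he i) (hf j)
  have w2 := fun i j => le_val hK (k' := -1) (fun u v => by simpa using h2 u v) (e i) (-f j)
    (he i) (neg_unit (hf j))
  obtain ⟨p, q, ⟨i1, hi1⟩, ⟨i2, hi2⟩, hp, hq, hpq, -, -, -⟩ := triple l hl
  obtain ⟨r, s, ⟨j1, hj1⟩, ⟨j2, hj2⟩, hr, hs, hrs, -, -, -⟩ := triple k hk
  have h3 : p + r ≤ 2 * (1 - sg K) := by
    have := hv i1 j1
    rw [hi1, hj1] at this
    linarith [u1 i1 j1, u2 i1 j1]
  have h4 : q + s ≤ 2 * (1 + sg K) := by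
    have := hv i2 j2
    rw [hi2, hj2] at this
    linarith [w1 i2 j2, w2 i2 j2]
  have h5 := real1 hp hq hr hs (Finset.sum_nonneg fun i _ => sq_nonneg (l i))
    (Finset.sum_nonneg fun i _ => sq_nonneg (k i)) hpq hrs h3 h4
  have h6 : pont K = ∑ i, l i ^ 2 - ∑ i, k i ^ 2 := by rw [pont_eq hK, hA, hD]; ring
  rw [h6, E4_eq hK, hA, hD, ← four_mB hK]
  linarith

end Pool.Agent.GBS.H92
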